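import Pool.Agent.Lib.MP_32f877_an.Ric5

namespace Pool.Agent.Results.MP_32f877_an.AngularMomentum

/-- For all positive masses and every vector `J`, the spatial Newtonian four-body problem has a
collision-free solution on `t ≥ 0` with zero linear momentum, angular momentum `J` and tetrahedron
volume between two positive constants if and only if `J ≠ 0`. -/
theorem result (m : Fin 4 → ℝ) (hm : ∀ i, 0 < m i) (J : Fin 3 → ℝ) :
    (∃ q v a : Fin 4 → ℝ → EuclideanSpace ℝ (Fin 3),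
      (∀ t : ℝ, 0 ≤ t → ∀ i, HasDerivAt (q i) (v i t) t ∧ HasDerivAt (v i) (a i t) t) ∧
      (∀ t : ℝ, 0 ≤ t → ∀ i j, i ≠ j → q i t ≠ q j t) ∧
      (∀ t : ℝ, 0 ≤ t → ∀ i, m i • a i t =
        ∑ j ∈ Finset.univ.erase i, (m i * m j / ‖q j t - q i t‖ ^ 3) • (q j t - q i t)) ∧
      ∑ i, m i • v i 0 = 0 ∧
      ∑ i, m i • crossProduct (q i 0).ofLp (v i 0).ofLp = J ∧
      ∃ c C : ℝ, 0 < c ∧ c ≤ C ∧ ∀ t : ℝ, 0 ≤ t →
        c ≤ 1 / 6 * |Matrix.det (Matrix.of fun i k : Fin 3 => (q i.succ t - q 0 t) k)| ∧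
        1 / 6 * |Matrix.det (Matrix.of fun i k : Fin 3 => (q i.succ t - q 0 t) k)| ≤ C) ↔
    J ≠ 0 := by
  have h := Pool.Agent.Lib.MP_32f877_an.Ric.good_iff hm (J := WithLp.toLp 2 J)
  have e : (WithLp.toLp 2 J : EuclideanSpace ℝ (Fin 3)) ≠ 0 ↔ J ≠ 0 := by simp
  rw [← e, ← h]
  refine exists_congr fun q => exists_congr fun v => exists_congr fun a =>
    and_congr_right fun _ => and_congr_right fun _ => and_congr_right fun _ =>
    and_congr_right fun _ => and_congr ?_ ?_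
  · rw [← (WithLp.ofLp_injective 2).eq_iff]
    simp only [WithLp.ofLp_sum, WithLp.ofLp_smul, Pool.Agent.Lib.MP_32f877_an.Ric.cr_ofLp]
  · have e' := fun t => Pool.Agent.Lib.MP_32f877_an.Ric.det_eq fun k => q k t
    simp only [e']

end Pool.Agent.Results.MP_32f877_an.AngularMomentum
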