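import Pool.Agent.Lib.MP_32f877_an.Vol

open Finset Complex Pool.Agent.Lib.MP_32f877_an.Bd

namespace Pool.Agent.Results.MP_32f877_an.BoundedOrbit

/-- There are four positive masses and a bounded collision-free solution of the spatial Newtonian
four-body problem, defined for all real times and with periodic mutual distances, whose
tetrahedron volume stays between two positive constants. -/
theorem result :
    ∃ m : Fin 4 → ℝ, (∀ i, 0 < m i) ∧
      ∃ q v a : Fin 4 → ℝ → EuclideanSpace ℝ (Fin 3),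
        (∀ (t : ℝ) (i : Fin 4), HasDerivAt (q i) (v i t) t ∧ HasDerivAt (v i) (a i t) t) ∧
        (∀ (t : ℝ) (i j : Fin 4), i ≠ j → q i t ≠ q j t) ∧
        (∀ (t : ℝ) (i : Fin 4), m i • a i t =
          ∑ j ∈ Finset.univ.erase i, (m i * m j / ‖q j t - q i t‖ ^ 3) • (q j t - q i t)) ∧
        (∃ B : ℝ, ∀ (t : ℝ) (i : Fin 4), ‖q i t‖ ≤ B) ∧
        (∃ τ : ℝ, 0 < τ ∧ ∀ (t : ℝ) (i j : Fin 4),
          ‖q i (t + τ) - q j (t + τ)‖ = ‖q i t - q j t‖) ∧
        ∃ c C : ℝ, 0 < c ∧ c ≤ C ∧ ∀ t : ℝ,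
          c ≤ 1 / 6 * |Matrix.det (Matrix.of fun i k : Fin 3 => (q i.succ t - q 0 t) k)| ∧
          1 / 6 * |Matrix.det (Matrix.of fun i k : Fin 3 => (q i.succ t - q 0 t) k)| ≤ C := by
  obtain ⟨a, b, σ, η, ν, μ, ε, hP, hε, hσ, hη, hν, hμ, hμ', hG, hG'⟩ := exists_good
  simp only [Phi, Prod.mk.injEq, and_true] at hP
  obtain ⟨hW, hZ, hs, he⟩ := hP
  have hk0 := kap0 a b ε hs hσ
  have hk1 := kap1 a b ε he hη
  have hu : ∀ t : ℝ, normSq (ex 1 t) = 1 := fun t => by rw [normSq_eq_norm_sq, norm_ex, one_pow]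
  have hu1 : ∀ t : ℝ, normSq (ex 1 t * ze) = 1 := fun t => by
    rw [normSq_mul, hu, normSq_ze, one_mul]
  have hu2 : ∀ t : ℝ, normSq (ex 1 t * ze * ze) = 1 := fun t => by
    rw [normSq_mul, hu1, normSq_ze, one_mul]
  have F := fun (u : ℂ) (h : normSq u = 1) =>
    force a b ε μ (fun θ => (hk0 θ).2) (fun θ => (hk1 θ).2) h
  obtain ⟨v0, h0⟩ := rho_ode hW hZ 1 0
  obtain ⟨v1, h1⟩ := rho_ode hW hZ ze dl
  obtain ⟨v2, h2⟩ := rho_ode hW hZ (ze * ze) (dl + dl)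
  simp only [mul_one, add_zero, F _ (hu _)] at h0
  simp only [F _ (hu1 _), rho_per] at h1
  have e4 : ∀ (u : ℂ) (θ : ℝ), rho a b ε (u * ze * ze * ze * ze) (θ + dl + dl + dl + dl) =
    rho a b ε (u * ze) (θ + dl) := fun u θ => rho_per a b ε (u * ze) (θ + dl)
  simp only [← mul_assoc, ← add_assoc, F _ (hu2 _), e4, rho_per] at h2
  set R0 : ℝ → E3 := fun t => rho a b ε (ex 1 t) (ν * t) with hR0
  set R1 : ℝ → E3 := fun t => rho a b ε (ex 1 t * ze) (ν * t + dl) with hR1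
  set R2 : ℝ → E3 := fun t => rho a b ε (ex 1 t * ze * ze) (ν * t + dl + dl) with hR2
  have n0 : ∀ t, ‖R0 t‖ = N0 a b ε (ν * t) := fun t => norm_rho a b ε (hu t) _
  have n1 : ∀ t, ‖R1 t‖ = N0 a b ε (ν * t + dl) := fun t => norm_rho a b ε (hu1 t) _
  have n2 : ∀ t, ‖R2 t‖ = N0 a b ε (ν * t + dl + dl) := fun t => norm_rho a b ε (hu2 t) _
  have n01 : ∀ t, ‖R1 t - R0 t‖ = N1 a b ε (ν * t) := fun t => norm_rho1 a b ε (hu t) _
  have n12 : ∀ t, ‖R2 t - R1 t‖ = N1 a b ε (ν * t + dl) := fun t => norm_rho1 a b ε (hu1 t) _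
  have n20 : ∀ t, ‖R0 t - R2 t‖ = N1 a b ε (ν * t + dl + dl) := fun t => by
    have := norm_rho1 a b ε (hu2 t) (ν * t + dl + dl)
    rwa [rho_per] at this
  set m : ℝ := r3 * μ with hm
  set M : ℝ := 1 - μ with hM
  have hm0 : 0 < m := mul_pos r3_pos (by linarith)
  have hM0 : 0 < M := by linarith
  set l : ℝ := -(m / (M + 3 * m)) with hl
  set a0 : ℝ → E3 := fun t => -(M • att (R0 t) + m • (att (R0 t) + att (R1 t) + att (R2 t)) -
    m • (att (R1 t - R0 t) + att (R2 t - R0 t))) with ha0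
  set a1 : ℝ → E3 := fun t => -(M • att (R1 t) + m • (att (R1 t) + att (R2 t) + att (R0 t)) -
    m • (att (R2 t - R1 t) + att (R0 t - R1 t))) with ha1
  set a2 : ℝ → E3 := fun t => -(M • att (R2 t) + m • (att (R2 t) + att (R0 t) + att (R1 t)) -
    m • (att (R0 t - R2 t) + att (R1 t - R2 t))) with ha2
  have g0 : ∀ t, HasDerivAt R0 (v0 t) t ∧ HasDerivAt v0 (a0 t) t := h0
  have g1 : ∀ t, HasDerivAt R1 (v1 t) t ∧ HasDerivAt v1 (a1 t) t := h1
  have g2 : ∀ t, HasDerivAt R2 (v2 t) t ∧ HasDerivAt v2 (a2 t) t := fun t => by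
    refine ⟨(h2 t).1, (h2 t).2.congr_deriv ?_⟩
    simp only [ha2, hR0, hR1, hR2, hm]
  have hU : ∀ t, l • (a0 t + a1 t + a2 t) = m • (att (R0 t) + att (R1 t) + att (R2 t)) := fun t => by
    have : a0 t + a1 t + a2 t = (-(M + 3 * m)) • (att (R0 t) + att (R1 t) + att (R2 t)) := by
      simp only [ha0, ha1, ha2]
      rw [att_neg (R0 t) (R1 t), att_neg (R0 t) (R2 t), att_neg (R1 t) (R2 t)]
      module
    rw [this, smul_smul]; congr 1; rw [hl]; field_simp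
  let R : Fin 4 → ℝ → E3 := ![fun _ => 0, R0, R1, R2]
  have hd : ∀ (t : ℝ) (i j : Fin 4), (l • (R0 t + R1 t + R2 t) + R i t) -
    (l • (R0 t + R1 t + R2 t) + R j t) = R i t - R j t := fun t i j => by abel
  refine ⟨![M, m, m, m], fun i => by fin_cases i <;> simp [hm0, hM0],
    fun i t => l • (R0 t + R1 t + R2 t) + R i t,
    fun i t => l • (v0 t + v1 t + v2 t) + ![0, v0 t, v1 t, v2 t] i,
    fun i t => l • (a0 t + a1 t + a2 t) + ![0, a0 t, a1 t, a2 t] i,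
    fun t i => ⟨?_, ?_⟩, fun t i j hij => ?_, fun t i => ?_, ?_,
    ⟨2 * Real.pi / ν, by have := Real.pi_pos; positivity, fun t i j => ?_⟩,
    1 / 6 * (4 * ε ^ 2), 1 / 6 * (8 * ε ^ 2), by positivity, by nlinarith [sq_nonneg ε],
    fun t => ?_⟩
  · refine ((((g0 t).1.add (g1 t).1).add (g2 t).1).const_smul l).add ?_
    fin_cases i
    exacts [hasDerivAt_const t 0, (g0 t).1, (g1 t).1, (g2 t).1]
  · refine ((((g0 t).2.add (g1 t).2).add (g2 t).2).const_smul l).add ?_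
    fin_cases i
    exacts [hasDerivAt_const t 0, (g0 t).2, (g1 t).2, (g2 t).2]
  · rw [← sub_ne_zero, hd, ← norm_ne_zero_iff]
    have := (hk0 (ν * t)).1
    have := (hk0 (ν * t + dl)).1
    have := (hk0 (ν * t + dl + dl)).1
    have := (hk1 (ν * t)).1
    have := (hk1 (ν * t + dl)).1
    have := (hk1 (ν * t + dl + dl)).1
    have := norm_sub_rev (R0 t) (R1 t)
    have := norm_sub_rev (R1 t) (R2 t)
    have := norm_sub_rev (R2 t) (R0 t)
    fin_cases i <;> fin_cases j <;> simp only [R] <;> simp_all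
  · have e : ∀ (x y : ℝ) (d : E3), (x * y / ‖d‖ ^ 3) • d = (x * y) • att d := fun x y d => by
      rw [att, smul_smul]; congr 1; ring
    have e' : ∀ d : E3, att (-d) = -att d := fun d => by simp [att]
    simp only [hd, e, hU]
    rw [Finset.sum_erase_eq_sub (mem_univ i), Fin.sum_univ_four]
    fin_cases i <;> simp [R, ha0, ha1, ha2, e'] <;> module
  · have hb : ∀ θ, N0 a b ε θ ≤ ‖VL‖ * (1 + ε * ‖Q a‖ + ε * ‖P b‖) := fun θ => by
      refine (VL.le_opNorm _).trans (mul_le_mul_of_nonneg_left ?_ (norm_nonneg _))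
      have e1 := mul_le_mul_of_nonneg_left (norm_ev_le θ (Q a)) hε.le
      have e2 := mul_le_mul_of_nonneg_left (norm_ev_le θ (P b)) hε.le
      have e3 : ‖wf a ε θ‖ ≤ 1 + ε * ‖ev θ (Q a)‖ := by
        refine (norm_add_le _ _).trans ?_
        simp [abs_of_pos hε]
      have e5 : ‖zf b ε θ‖ = ε * ‖ev θ (P b)‖ := by simp [zf, abs_of_pos hε]
      have e6 : 0 ≤ ε * ‖Q a‖ := by positivity
      have e7 : 0 ≤ ε * ‖P b‖ := by positivity
      rw [Prod.norm_def, max_le_iff]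
      constructor <;> simp only <;> linarith
    set B := ‖VL‖ * (1 + ε * ‖Q a‖ + ε * ‖P b‖)
    have hB : 0 ≤ B := by positivity
    refine ⟨|l| * (B + B + B) + B, fun t i => (norm_add_le _ _).trans (add_le_add ?_ ?_)⟩
    · rw [norm_smul, Real.norm_eq_abs]
      refine mul_le_mul_of_nonneg_left ((norm_add₃_le ..).trans ?_) (abs_nonneg _)
      rw [n0, n1, n2]; linarith [hb (ν * t), hb (ν * t + dl), hb (ν * t + dl + dl)]
    · fin_cases i <;> simp [R, n0, n1, n2, hb, hB]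
  · have hτ : ν * (t + 2 * Real.pi / ν) = ν * t - dl - dl - dl := by
      rw [dl]; field_simp; ring
    have p0 : ∀ x y, y = x + dl + dl + dl → N0 a b ε x = N0 a b ε y := fun x y h => by
      rw [h, N0_per]
    have p1 : ∀ x y, y = x + dl + dl + dl → N1 a b ε x = N1 a b ε y := fun x y h => by
      rw [h, N1_per]
    set t' := t + 2 * Real.pi / ν
    have s0 : ‖R0 t'‖ = ‖R0 t‖ := by rw [n0, n0]; exact p0 _ _ (by rw [hτ]; ring)
    have s1 : ‖R1 t'‖ = ‖R1 t‖ := by rw [n1, n1]; exact p0 _ _ (by rw [hτ]; ring)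
    have s2 : ‖R2 t'‖ = ‖R2 t‖ := by rw [n2, n2]; exact p0 _ _ (by rw [hτ]; ring)
    have s10 : ‖R1 t' - R0 t'‖ = ‖R1 t - R0 t‖ := by
      rw [n01, n01]; exact p1 _ _ (by rw [hτ]; ring)
    have s21 : ‖R2 t' - R1 t'‖ = ‖R2 t - R1 t‖ := by
      rw [n12, n12]; exact p1 _ _ (by rw [hτ]; ring)
    have s02 : ‖R0 t' - R2 t'‖ = ‖R0 t - R2 t‖ := by
      rw [n20, n20]; exact p1 _ _ (by rw [hτ]; ring)
    have s01 : ‖R0 t' - R1 t'‖ = ‖R0 t - R1 t‖ := by rw [norm_sub_rev, s10, norm_sub_rev]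
    have s12 : ‖R1 t' - R2 t'‖ = ‖R1 t - R2 t‖ := by rw [norm_sub_rev, s21, norm_sub_rev]
    have s20 : ‖R2 t' - R0 t'‖ = ‖R2 t - R0 t‖ := by rw [norm_sub_rev, s02, norm_sub_rev]
    rw [hd, hd]
    clear_value R0 R1 R2
    fin_cases i <;> fin_cases j <;> simp [R, s0, s1, s2, s10, s21, s02, s01, s12, s20]
  · have h3 := vol_bound (a := a) hZ hν hμ hμ' hε hG hG' (ν * t)
    rw [← det_rho a b ε (hu t)] at h3
    have e : (Matrix.of fun i k : Fin 3 => ((l • (R0 t + R1 t + R2 t) + R i.succ t) -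
        (l • (R0 t + R1 t + R2 t) + R 0 t)) k) = Matrix.of fun i k : Fin 3 =>
        (![rho a b ε (ex 1 t) (ν * t), rho a b ε (ex 1 t * ze) (ν * t + dl),
          rho a b ε (ex 1 t * ze * ze) (ν * t + dl + dl)] i) k := by
      ext i k; rw [Matrix.of_apply, Matrix.of_apply, hd]
      fin_cases i <;> simp [R, hR0, hR1, hR2]
    rw [e]
    have h4 := abs_le.1 h3
    have : 0 < ε ^ 2 := by positivity
    rw [abs_of_neg (by linarith [h4.2])]
    constructor <;> linarith [h4.1, h4.2]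

end Pool.Agent.Results.MP_32f877_an.BoundedOrbit
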