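import Pool.Agent.Lib.MP_32f877_an.Ric4

namespace Pool.Agent.Results.MP_32f877_an.ZeroMomentum

/-- A collision-free solution of the spatial Newtonian four-body problem on `t ≥ 0` with zero
linear and angular momentum has coplanar instants at arbitrarily large times, unless all six
mutual distances tend to infinity. -/
theorem result (m : Fin 4 → ℝ) (hm : ∀ i, 0 < m i)
    (q v a : Fin 4 → ℝ → EuclideanSpace ℝ (Fin 3))
    (hd : ∀ t : ℝ, 0 ≤ t → ∀ i, HasDerivWithinAt (q i) (v i t) (Set.Ici 0) t ∧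
      HasDerivWithinAt (v i) (a i t) (Set.Ici 0) t)
    (hne : ∀ t : ℝ, 0 ≤ t → ∀ i j, i ≠ j → q i t ≠ q j t)
    (heq : ∀ t : ℝ, 0 ≤ t → ∀ i, m i • a i t =
      ∑ j ∈ Finset.univ.erase i, (m i * m j / ‖q j t - q i t‖ ^ 3) • (q j t - q i t))
    (hP : ∑ i, m i • v i 0 = 0)
    (hJ : ∑ i, m i • crossProduct (q i 0).ofLp (v i 0).ofLp = 0) :
    (∀ T : ℝ, ∃ t : ℝ, T ≤ t ∧
      Matrix.det (Matrix.of fun i k : Fin 3 => (q i.succ t - q 0 t) k) = 0) ∨
    ∀ i j, i ≠ j → Filter.Tendsto (fun t => ‖q i t - q j t‖) Filter.atTop Filter.atTop := by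
  by_cases h : ∀ T : ℝ, ∃ t : ℝ, T ≤ t ∧
      Matrix.det (Matrix.of fun i k : Fin 3 => (q i.succ t - q 0 t) k) = 0
  · exact Or.inl h
  · push Not at h
    obtain ⟨T, hT⟩ := h
    exact Or.inr fun i j hij => (Pool.Agent.Lib.MP_32f877_an.Ric.sol_of hm hd hne heq hP hJ
      (le_max_right T 0) fun t ht => hT t ((le_max_left T 0).trans ht.le)).escape hij

end Pool.Agent.Results.MP_32f877_an.ZeroMomentum
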